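import Pool.Agent.W533.K.Defs

/-!
Project UK (helper533), part AVG (helper493).
-/

set_option autoImplicit false

namespace Pool.Agent.W493.UK

open Finset Pool.Agent.W533.K

universe u

section
variable {X : Type u} [MetricSpace X] [Finite X] {ι : Type} {c : X → ι}

lemma exists_near (hc : Function.Surjective c) (i : ι) (x : X) :
    ∃ a, c a = i ∧ dist x a = pd c i x := by
  obtain ⟨y, hy⟩ := hc i
  obtain ⟨a, ha, hxa⟩ := (Set.toFinite {y : X | c y = i}).isCompact.exists_infDist_eq_dist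
    ⟨y, hy⟩ x
  exact ⟨a, ha, hxa.symm⟩

lemma exists_nearY {Y : Set X} (hY : Y.Nonempty) (x : X) :
    ∃ b ∈ Y, dist x b = Metric.infDist x Y := by
  obtain ⟨a, ha, hxa⟩ := (Set.toFinite Y).isCompact.exists_infDist_eq_dist hY x
  exact ⟨a, ha, hxa.symm⟩

omit [Finite X] in
lemma pd_nonneg (i : ι) (x : X) : 0 ≤ pd c i x := Metric.infDist_nonneg

omit [Finite X] in
lemma infDist_lip (Y : Set X) (x y : X) :
    |Metric.infDist x Y - Metric.infDist y Y| ≤ dist x y := by
  rw [abs_le]
  constructor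
  · have := Metric.infDist_le_infDist_add_dist (s := Y) (x := y) (y := x)
    rw [dist_comm y x] at this
    linarith
  · have := Metric.infDist_le_infDist_add_dist (s := Y) (x := x) (y := y)
    linarith

omit [Finite X] in
lemma pd_lip (i : ι) (x y : X) : |pd c i x - pd c i y| ≤ dist x y := infDist_lip _ x y

omit [Finite X] in
lemma pd_self (x : X) : pd c (c x) x = 0 :=
  Metric.infDist_zero_of_mem (show x ∈ {y | c y = c x} from rfl)

end

lemma tw_nonneg (Lm ε t : ℝ) : 0 ≤ tw Lm ε t := le_max_right _ _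

lemma tw_pos_lt {Lm ε t : ℝ} (hL : 0 < Lm) (h : 0 < tw Lm ε t) : t < ε := by
  unfold tw at h
  rcases lt_max_iff.1 h with h1 | h1
  · rw [sub_pos, Real.exp_lt_exp] at h1
    by_contra hcon
    rw [not_lt] at hcon
    nlinarith
  · exact absurd h1 (lt_irrefl _)

section w
variable {ι : Type} [Fintype ι] {Lm ε r : ℝ} {p : ι → ℝ}

lemma sum_tw_pos (hL : 0 < Lm * ε) (hp : ∃ i, p i = 0) : 0 < ∑ j, tw Lm ε (p j / r) := by
  obtain ⟨i, hi⟩ := hp
  refine Finset.sum_pos' (fun _ _ => tw_nonneg _ _ _) ⟨i, Finset.mem_univ _, ?_⟩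
  unfold tw
  rw [hi, zero_div, mul_zero, neg_zero, Real.exp_zero]
  refine lt_max_of_lt_left ?_
  rw [sub_pos, Real.exp_lt_one_iff]
  linarith

lemma w1_nonneg (i : ι) : 0 ≤ w1 Lm ε p r i :=
  div_nonneg (tw_nonneg _ _ _) (Finset.sum_nonneg fun _ _ => tw_nonneg _ _ _)

lemma w1_sum (hL : 0 < Lm * ε) (hp : ∃ i, p i = 0) : ∑ i, w1 Lm ε p r i = 1 := by
  unfold w1
  rw [← Finset.sum_div, div_self (sum_tw_pos hL hp).ne']

lemma w1_pos_lt (hL : 0 < Lm) (hr : 0 < r) {i : ι} (h : 0 < w1 Lm ε p r i) : p i < ε * r := by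
  have h1 : 0 < tw Lm ε (p i / r) := by
    rcases (tw_nonneg Lm ε (p i / r)).eq_or_lt with h2 | h2
    · unfold w1 at h
      rw [← h2, zero_div] at h
      exact absurd h (lt_irrefl _)
    · exact h2
  have := tw_pos_lt hL h1
  rwa [div_lt_iff₀ hr] at this

end w

theorem avg (hW : Weight1) : Avg.{u} := by
  classical
  intro X _ _ ι _ c Y Z n h hi hh ε c1 M1 M2 hc hY hε hε1 hc1 hM1 hM2 hh1 hh2 hh3
  set k : ℕ := Fintype.card ι with hk
  set Lm : ℝ := Real.log (2 * k) / ε with hLm
  have hM20 : 0 ≤ M2 := by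
    have : 0 ≤ M1 * ε + c1 * (1 + ε) := by positivity
    linarith
  set φ : X → ι → ℝ := fun x => w1 Lm ε (fun i => pd c i x) (Metric.infDist x Y) with hφ
  have hφ0 : ∀ x i, 0 ≤ φ x i := fun x i => w1_nonneg i
  have hcard : ∀ _ : X, 1 ≤ k := by
    intro x
    exact Fintype.card_pos_iff.2 ⟨c x⟩
  have hlog : ∀ _ : X, 0 < Real.log (2 * k) := by
    intro x
    refine Real.log_pos ?_
    have : (1:ℝ) ≤ k := by exact_mod_cast hcard x
    linarith
  have hLmp : ∀ _ : X, 0 < Lm := fun x => div_pos (hlog x) hε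
  have hLε : ∀ _ : X, 0 < Lm * ε := fun x => mul_pos (hLmp x) hε
  have hφ1 : ∀ x, ∑ i, φ x i = 1 := fun x => w1_sum (hLε x) ⟨c x, pd_self x⟩
  have hrpos : ∀ x, x ∉ Y → 0 < Metric.infDist x Y := by
    intro x hx
    exact ((Set.toFinite Y).isClosed.notMem_iff_infDist_pos hY).1 hx
  -- the key estimate
  have key : ∀ x ∈ Z, x ∉ Y → ∀ i, 0 < φ x i → ∀ b ∈ Y, ‖hh i x - h b‖ ≤ M2 * dist x b := by
    intro x hxZ hxY i hpos b hb
    have hr := hrpos x hxY
    have h1 : pd c i x < ε * Metric.infDist x Y :=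
      w1_pos_lt (p := fun i => pd c i x) (hLmp x) hr hpos
    have h2 : pd c i x < Metric.infDist x Y := by nlinarith
    obtain ⟨a, ha, hxa⟩ := exists_near hc i x
    have h3 := hh3 x hxZ hxY i h2 a ha
    have h4 := hh2 i a b ha hb
    have h5 : Metric.infDist x Y ≤ dist x b := Metric.infDist_le_dist_of_mem hb
    have h6 : dist a b ≤ dist x a + dist x b := by
      rw [dist_comm x a]
      exact dist_triangle _ _ _
    have h7 : ‖hh i x - h b‖ ≤ ‖hh i x - hi i a‖ + ‖hi i a - h b‖ := norm_sub_le_norm_sub_add_norm_sub _ _ _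
    have h8 : dist x a ≤ ε * dist x b := by
      rw [hxa]
      nlinarith
    calc ‖hh i x - h b‖ ≤ M1 * dist x a + c1 * dist a b := h7.trans (add_le_add h3 h4)
      _ ≤ M1 * (ε * dist x b) + c1 * (ε * dist x b + dist x b) := by
          gcongr
          linarith
      _ = (M1 * ε + c1 * (1 + ε)) * dist x b := by ring
      _ ≤ M2 * dist x b := mul_le_mul_of_nonneg_right hM2 dist_nonneg
  set H : X → E n := fun x => if x ∈ Y then h x else ∑ i, φ x i • hh i x with hH
  have hHY : ∀ x ∈ Y, H x = h x := fun x hx => by rw [hH]; simp [hx]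
  have hHn : ∀ x, x ∉ Y → H x = ∑ i, φ x i • hh i x := fun x hx => by rw [hH]; simp [hx]
  have hHd : ∀ x, x ∉ Y → ∀ b, H x - h b = ∑ i, φ x i • (hh i x - h b) := by
    intro x hx b
    rw [hHn x hx]
    simp_rw [smul_sub]
    rw [Finset.sum_sub_distrib, ← Finset.sum_smul, hφ1, one_smul]
  have hb2 : ∀ x ∈ Z, ∀ b ∈ Y, ‖H x - h b‖ ≤ M2 * dist x b := by
    intro x hxZ b hb
    by_cases hxY : x ∈ Y
    · rw [hHY x hxY]
      exact hh1 x hxY b hb
    · rw [hHd x hxY b]
      calc ‖∑ i, φ x i • (hh i x - h b)‖ ≤ ∑ i, ‖φ x i • (hh i x - h b)‖ := norm_sum_le _ _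
        _ ≤ ∑ i, φ x i * (M2 * dist x b) := by
            refine Finset.sum_le_sum fun i _ => ?_
            rw [norm_smul, Real.norm_eq_abs, abs_of_nonneg (hφ0 x i)]
            rcases (hφ0 x i).eq_or_lt with h0 | h0
            · rw [← h0, zero_mul, zero_mul]
            · exact mul_le_mul_of_nonneg_left (key x hxZ hxY i h0 b hb) (hφ0 x i)
        _ = M2 * dist x b := by rw [← Finset.sum_mul, hφ1, one_mul]
  refine ⟨H, hHY, hb2, ?_, ?_⟩
  · intro x hx y hy hxy
    obtain ⟨b, hb, hxb⟩ := exists_nearY hY x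
    have h1 := hb2 x hx b hb
    have h2 := hb2 y hy b hb
    have h3 : dist y b ≤ dist x y + dist x b := by
      rw [dist_comm x y]
      exact dist_triangle _ _ _
    have h4 : ‖H x - H y‖ ≤ ‖H x - h b‖ + ‖H y - h b‖ := by
      have : H x - H y = (H x - h b) - (H y - h b) := by abel
      rw [this]
      exact norm_sub_le _ _
    have h5 : dist x b < 4 * dist x y := by rw [hxb]; linarith
    calc ‖H x - H y‖ ≤ M2 * dist x b + M2 * dist y b := by linarith
      _ ≤ M2 * (4 * dist x y) + M2 * (dist x y + 4 * dist x y) := by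
          gcongr
          linarith
      _ = 9 * M2 * dist x y := by ring
  · intro x hx y hy hxY hxy
    have hr := hrpos x hxY
    have hlip := infDist_lip Y x y
    have hyY : y ∉ Y := by
      intro hyY
      rw [Metric.infDist_zero_of_mem hyY, sub_zero, abs_of_pos hr] at hlip
      linarith
    obtain ⟨b, hb, hxb⟩ := exists_nearY hY x
    have hyb : dist y b ≤ 5 / 4 * Metric.infDist x Y := by
      have h3 : dist y b ≤ dist x y + dist x b := by
        rw [dist_comm x y]
        exact dist_triangle _ _ _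
      rw [hxb] at h3
      linarith
    have hdiff : H x - H y = ∑ i, (φ x i • (hh i x - h b) - φ y i • (hh i y - h b)) := by
      rw [Finset.sum_sub_distrib, ← hHd x hxY b, ← hHd y hyY b]
      abel
    have hterm : ∀ i, ‖φ x i • (hh i x - h b) - φ y i • (hh i y - h b)‖ ≤
        φ x i * ‖hh i x - hh i y‖ + |φ x i - φ y i| * (5 / 4 * M2 * Metric.infDist x Y) := by
      intro i
      rcases (hφ0 y i).eq_or_lt with h0 | h0
      · rw [← h0, zero_smul, sub_zero, sub_zero, norm_smul, Real.norm_eq_abs]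
        rcases (hφ0 x i).eq_or_lt with h1 | h1
        · rw [← h1]
          simp
        · have h2 := key x hx hxY i h1 b hb
          rw [hxb] at h2
          have h3 : 0 ≤ φ x i * ‖hh i x - hh i y‖ := mul_nonneg (hφ0 x i) (norm_nonneg _)
          have h4 : |φ x i| * ‖hh i x - h b‖ ≤
              |φ x i| * (5 / 4 * M2 * Metric.infDist x Y) := by
            refine mul_le_mul_of_nonneg_left ?_ (abs_nonneg _)
            have : 0 ≤ M2 * Metric.infDist x Y := mul_nonneg hM20 hr.le
            linarith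
          linarith
      · have h2 := key y hy hyY i h0 b hb
        have e : φ x i • (hh i x - h b) - φ y i • (hh i y - h b) =
            φ x i • (hh i x - hh i y) + (φ x i - φ y i) • (hh i y - h b) := by
          rw [sub_smul, smul_sub, smul_sub, smul_sub, smul_sub]
          abel
        rw [e]
        refine (norm_add_le _ _).trans ?_
        rw [norm_smul, norm_smul, Real.norm_eq_abs, Real.norm_eq_abs, abs_of_nonneg (hφ0 x i)]
        have h4 : ‖hh i y - h b‖ ≤ 5 / 4 * M2 * Metric.infDist x Y := by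
          calc ‖hh i y - h b‖ ≤ M2 * dist y b := h2
            _ ≤ M2 * (5 / 4 * Metric.infDist x Y) := mul_le_mul_of_nonneg_left hyb hM20
            _ = _ := by ring
        gcongr
    have hw := hW ι inferInstance (fun i => pd c i x) (fun i => pd c i y)
      (Metric.infDist x Y) (Metric.infDist y Y) (dist x y) ε hε hε1 hr hxy hlip
      (fun i => pd_lip i x y) (fun i => pd_nonneg i x) (fun i => pd_nonneg i y)
      ⟨c x, pd_self x⟩ ⟨c y, pd_self y⟩
    have hw' : ∑ i, |φ x i - φ y i| ≤ 14 * Lm * dist x y / Metric.infDist x Y := hw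
    rw [hdiff]
    calc ‖∑ i, (φ x i • (hh i x - h b) - φ y i • (hh i y - h b))‖ ≤
        ∑ i, ‖φ x i • (hh i x - h b) - φ y i • (hh i y - h b)‖ := norm_sum_le _ _
      _ ≤ ∑ i, (φ x i * ‖hh i x - hh i y‖ +
            |φ x i - φ y i| * (5 / 4 * M2 * Metric.infDist x Y)) :=
          Finset.sum_le_sum fun i _ => hterm i
      _ = ∑ i, φ x i * ‖hh i x - hh i y‖ +
            (∑ i, |φ x i - φ y i|) * (5 / 4 * M2 * Metric.infDist x Y) := by
          rw [Finset.sum_add_distrib, ← Finset.sum_mul]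
      _ ≤ ∑ i, φ x i * ‖hh i x - hh i y‖ +
            (14 * Lm * dist x y / Metric.infDist x Y) * (5 / 4 * M2 * Metric.infDist x Y) := by
          gcongr
      _ = ∑ i, φ x i * ‖hh i x - hh i y‖ + 35 / 2 * Lm * M2 * dist x y := by
          field_simp
          ring
      _ ≤ _ := by
          have h9 : 0 ≤ Lm * M2 * dist x y :=
            mul_nonneg (mul_nonneg (hLmp x).le hM20) dist_nonneg
          linarith

end Pool.Agent.W493.UK
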