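import Pool.Agent.W493.UK.Avg

/-!
Project UK (helper533), part UPPER (helper493).
-/

set_option autoImplicit false

namespace Pool.Agent.W493.UK

open Finset Pool.Agent.W533.K

universe u

lemma G_le {X : Type u} [MetricSpace X] [Finite X] {ι : Type} [Fintype ι] {c : X → ι}
    {ρ : X → ℝ} {ν : ι → X → ℝ} {n : ι → ℕ} {g G : (i : ι) → X → E (n i)}
    (hc : Function.Surjective c) (hL : LevelData c ρ ν n g G) (i : ι) (x : X)
    (h : 0 < ν i x) : ‖G i x‖ ≤ 1.01 * ρ x ∧ pd c i x ≤ ρ x / 5000 := by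
  have h1 := hL.nu_supp i x h
  obtain ⟨a, ha, hxa⟩ := exists_near hc i x
  have h2 := hL.close i x a ha
  have h3 := hL.g_norm i a ha
  have h4 := hL.rho_lip x a
  have h5 : ‖G i x‖ ≤ ‖G i x - g i a‖ + ‖g i a‖ := by
    have : G i x = (G i x - g i a) + g i a := by abel
    calc ‖G i x‖ = ‖(G i x - g i a) + g i a‖ := by rw [← this]
      _ ≤ _ := norm_add_le _ _
  have h6 := (abs_le.1 h4).1
  rw [hxa] at h2 h6
  refine ⟨?_, h1.le⟩
  rw [h3] at h5
  have h7 := hL.rho_pos x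
  norm_num
  linarith

lemma sq2 {a p q : ℝ} (ha : 0 ≤ a) (h : a ≤ p + q) : a ^ 2 ≤ 2 * p ^ 2 + 2 * q ^ 2 := by
  have h1 := pow_le_pow_left₀ ha h 2
  nlinarith [sq_nonneg (p - q)]

set_option maxHeartbeats 1000000 in
theorem upper : Upper.{u} := by
  intro X _ _ ι _ c ρ ν n g G L W hc hD hL hW hG hν x y
  set δ := dist x y with hδ
  have hδ0 : 0 ≤ δ := dist_nonneg
  have hρ := hD.rho_pos x
  have hρy := hD.rho_pos y
  have hlip := abs_le.1 (hD.rho_lip x y)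
  have hsx := hD.nu_sum x
  have hsy := hD.nu_sum y
  have hfirst : (ρ x - ρ y) ^ 2 ≤ δ ^ 2 := sq_le_sq' hlip.1 hlip.2
  have hGx : ∀ i, ‖ν i x • G i x‖ ≤ ν i x * (1.01 * ρ x) := by
    intro i
    rw [norm_smul, Real.norm_eq_abs, abs_of_nonneg (hD.nu_nonneg i x)]
    rcases (hD.nu_nonneg i x).eq_or_lt with h | h
    · rw [← h, zero_mul, zero_mul]
    · exact mul_le_mul_of_nonneg_left (G_le hc hD i x h).1 h.le
  have hGy : ∀ i, ‖ν i y • G i y‖ ≤ ν i y * (1.01 * ρ y) := by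
    intro i
    rw [norm_smul, Real.norm_eq_abs, abs_of_nonneg (hD.nu_nonneg i y)]
    rcases (hD.nu_nonneg i y).eq_or_lt with h | h
    · rw [← h, zero_mul, zero_mul]
    · exact mul_le_mul_of_nonneg_left (G_le hc hD i y h).1 h.le
  have hpx : ∀ i, 0 ≤ ν i x * pd c i x ∧ ν i x * pd c i x ≤ ν i x * (ρ x / 5000) := by
    intro i
    refine ⟨mul_nonneg (hD.nu_nonneg i x) (pd_nonneg i x), ?_⟩
    rcases (hD.nu_nonneg i x).eq_or_lt with h | h
    · rw [← h, zero_mul, zero_mul]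
    · exact mul_le_mul_of_nonneg_left (G_le hc hD i x h).2 h.le
  have hpy : ∀ i, 0 ≤ ν i y * pd c i y ∧ ν i y * pd c i y ≤ ν i y * (ρ y / 5000) := by
    intro i
    refine ⟨mul_nonneg (hD.nu_nonneg i y) (pd_nonneg i y), ?_⟩
    rcases (hD.nu_nonneg i y).eq_or_lt with h | h
    · rw [← h, zero_mul, zero_mul]
    · exact mul_le_mul_of_nonneg_left (G_le hc hD i y h).2 h.le
  have hscale : δ ^ 2 * (400 * (L ^ 2 + W ^ 2 + 1)) ≤ (20 * (L + W + 1) * δ) ^ 2 := by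
    have : L ^ 2 + W ^ 2 + 1 ≤ (L + W + 1) ^ 2 := by nlinarith
    have h2 : 0 ≤ δ ^ 2 := sq_nonneg _
    nlinarith
  unfold levelSq
  rcases lt_or_ge (ρ x / 4) δ with hfar | hnear
  · -- far
    have h1 : ∀ i, ‖ν i x • G i x - ν i y • G i y‖ ^ 2 ≤
        2 * (1.01 * ρ x) ^ 2 * ν i x ^ 2 + 2 * (1.01 * ρ y) ^ 2 * ν i y ^ 2 := by
      intro i
      have h2 : ‖ν i x • G i x - ν i y • G i y‖ ≤ ν i x * (1.01 * ρ x) + ν i y * (1.01 * ρ y) :=
        (norm_sub_le _ _).trans (add_le_add (hGx i) (hGy i))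
      have h3 : ‖ν i x • G i x - ν i y • G i y‖ ^ 2 ≤
          (ν i x * (1.01 * ρ x) + ν i y * (1.01 * ρ y)) ^ 2 :=
        pow_le_pow_left₀ (norm_nonneg _) h2 2
      nlinarith [sq_nonneg (ν i x * (1.01 * ρ x) - ν i y * (1.01 * ρ y))]
    have h4 : ∑ i, ‖ν i x • G i x - ν i y • G i y‖ ^ 2 ≤
        2 * (1.01 * ρ x) ^ 2 + 2 * (1.01 * ρ y) ^ 2 := by
      calc ∑ i, ‖ν i x • G i x - ν i y • G i y‖ ^ 2 ≤
          ∑ i, (2 * (1.01 * ρ x) ^ 2 * ν i x ^ 2 + 2 * (1.01 * ρ y) ^ 2 * ν i y ^ 2) :=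
            Finset.sum_le_sum fun i _ => h1 i
        _ = _ := by
            rw [Finset.sum_add_distrib, ← Finset.mul_sum, ← Finset.mul_sum, hsx, hsy, mul_one,
              mul_one]
    have h5 : ∀ i, (ν i x * pd c i x - ν i y * pd c i y) ^ 2 ≤
        2 * (ρ x / 5000) ^ 2 * ν i x ^ 2 + 2 * (ρ y / 5000) ^ 2 * ν i y ^ 2 := by
      intro i
      obtain ⟨a1, a2⟩ := hpx i
      obtain ⟨b1, b2⟩ := hpy i
      have a3 := pow_le_pow_left₀ a1 a2 2
      have b3 := pow_le_pow_left₀ b1 b2 2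
      nlinarith [sq_nonneg (ν i x * pd c i x + ν i y * pd c i y)]
    have h6 : ∑ i, (ν i x * pd c i x - ν i y * pd c i y) ^ 2 ≤
        2 * (ρ x / 5000) ^ 2 + 2 * (ρ y / 5000) ^ 2 := by
      calc ∑ i, (ν i x * pd c i x - ν i y * pd c i y) ^ 2 ≤
          ∑ i, (2 * (ρ x / 5000) ^ 2 * ν i x ^ 2 + 2 * (ρ y / 5000) ^ 2 * ν i y ^ 2) :=
            Finset.sum_le_sum fun i _ => h5 i
        _ = _ := by
            rw [Finset.sum_add_distrib, ← Finset.mul_sum, ← Finset.mul_sum, hsx, hsy, mul_one,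
              mul_one]
    have hx4 : ρ x ≤ 4 * δ := by linarith
    have hy5 : ρ y ≤ 5 * δ := by linarith [hlip.1]
    have hx16 : ρ x ^ 2 ≤ 16 * δ ^ 2 := by nlinarith
    have hy25 : ρ y ^ 2 ≤ 25 * δ ^ 2 := by nlinarith
    refine le_trans ?_ hscale
    have h7 : 0 ≤ δ ^ 2 * (L ^ 2 + W ^ 2) := by positivity
    norm_num at h4
    nlinarith
  · -- near
    have hy : ρ y ≤ 5 / 4 * ρ x := by linarith [hlip.1]
    have hdν := hν x y hnear
    have h1 : ∀ i, ‖ν i x • G i x - ν i y • G i y‖ ≤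
        ν i x * (2 * L * δ) + |ν i x - ν i y| * (1.3 * ρ x) := by
      intro i
      have hn0 : 0 ≤ ν i x * (2 * L * δ) :=
        mul_nonneg (hD.nu_nonneg i x) (by positivity)
      rcases (hD.nu_nonneg i y).eq_or_lt with h | h
      · rw [← h, zero_smul, sub_zero, sub_zero, abs_of_nonneg (hD.nu_nonneg i x)]
        have h2 := hGx i
        have h3 : ν i x * (1.01 * ρ x) ≤ ν i x * (1.3 * ρ x) := by
          refine mul_le_mul_of_nonneg_left ?_ (hD.nu_nonneg i x)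
          norm_num
          linarith
        linarith
      · have e : ν i x • G i x - ν i y • G i y = ν i x • (G i x - G i y) +
            (ν i x - ν i y) • G i y := by
          rw [sub_smul, smul_sub]
          abel
        rw [e]
        refine (norm_add_le _ _).trans ?_
        rw [norm_smul, norm_smul, Real.norm_eq_abs, Real.norm_eq_abs,
          abs_of_nonneg (hD.nu_nonneg i x)]
        have h3 := (G_le hc hD i y h).1
        have h4 : ‖G i y‖ ≤ 1.3 * ρ x := by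
          norm_num at h3 ⊢
          linarith
        have h5 := hG i x y
        have h6 := hD.nu_nonneg i x
        gcongr
    have h1' : ∀ i, ‖ν i x • G i x - ν i y • G i y‖ ^ 2 ≤
        8 * L ^ 2 * δ ^ 2 * ν i x ^ 2 + 4 * ρ x ^ 2 * (ν i x - ν i y) ^ 2 := by
      intro i
      have h3 := sq2 (norm_nonneg _) (h1 i)
      have h6 : 2 * (|ν i x - ν i y| * (1.3 * ρ x)) ^ 2 ≤ 4 * ρ x ^ 2 * (ν i x - ν i y) ^ 2 := by
        rw [mul_pow, sq_abs, mul_pow]
        have h7 : 0 ≤ ρ x ^ 2 * (ν i x - ν i y) ^ 2 := by positivity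
        have e7 : 2 * ((ν i x - ν i y) ^ 2 * ((1.3:ℝ) ^ 2 * ρ x ^ 2)) =
            3.38 * (ρ x ^ 2 * (ν i x - ν i y) ^ 2) := by ring
        have e8 : 4 * ρ x ^ 2 * (ν i x - ν i y) ^ 2 = 4 * (ρ x ^ 2 * (ν i x - ν i y) ^ 2) := by
          ring
        rw [e7, e8]
        refine mul_le_mul_of_nonneg_right ?_ h7
        norm_num
      have h8 : 2 * (ν i x * (2 * L * δ)) ^ 2 = 8 * L ^ 2 * δ ^ 2 * ν i x ^ 2 := by ring
      rw [h8] at h3
      exact h3.trans (add_le_add le_rfl h6)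
    have h4 : ∑ i, ‖ν i x • G i x - ν i y • G i y‖ ^ 2 ≤
        8 * L ^ 2 * δ ^ 2 + 4 * ρ x ^ 2 * (W * δ / ρ x) ^ 2 := by
      calc ∑ i, ‖ν i x • G i x - ν i y • G i y‖ ^ 2 ≤
          ∑ i, (8 * L ^ 2 * δ ^ 2 * ν i x ^ 2 + 4 * ρ x ^ 2 * (ν i x - ν i y) ^ 2) :=
            Finset.sum_le_sum fun i _ => h1' i
        _ = 8 * L ^ 2 * δ ^ 2 + 4 * ρ x ^ 2 * ∑ i, (ν i x - ν i y) ^ 2 := by
            rw [Finset.sum_add_distrib, ← Finset.mul_sum, ← Finset.mul_sum, hsx, mul_one]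
        _ ≤ _ := add_le_add le_rfl (mul_le_mul_of_nonneg_left hdν (by positivity))
    have h5 : ∀ i, |ν i x * pd c i x - ν i y * pd c i y| ≤
        ν i x * δ + |ν i x - ν i y| * ρ x := by
      intro i
      have hn0 : 0 ≤ ν i x * δ := mul_nonneg (hD.nu_nonneg i x) hδ0
      rcases (hD.nu_nonneg i y).eq_or_lt with h | h
      · rw [← h, zero_mul, sub_zero, sub_zero, abs_of_nonneg (hD.nu_nonneg i x),
          abs_of_nonneg (hpx i).1]
        have h3 := (hpx i).2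
        have h6 := hD.nu_nonneg i x
        nlinarith
      · have e : ν i x * pd c i x - ν i y * pd c i y = ν i x * (pd c i x - pd c i y) +
            (ν i x - ν i y) * pd c i y := by ring
        rw [e]
        refine (abs_add_le _ _).trans ?_
        rw [abs_mul, abs_mul, abs_of_nonneg (hD.nu_nonneg i x)]
        have h3 := (G_le hc hD i y h).2
        have h4 : |pd c i y| ≤ ρ x := by
          rw [abs_of_nonneg (pd_nonneg i y)]
          linarith
        have h5 := pd_lip (c := c) i x y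
        have h6 := hD.nu_nonneg i x
        gcongr
    have h5' : ∀ i, (ν i x * pd c i x - ν i y * pd c i y) ^ 2 ≤
        2 * δ ^ 2 * ν i x ^ 2 + 2 * ρ x ^ 2 * (ν i x - ν i y) ^ 2 := by
      intro i
      have h3 := sq2 (abs_nonneg _) (h5 i)
      rw [sq_abs, mul_pow, mul_pow, sq_abs] at h3
      refine h3.trans (le_of_eq ?_)
      ring
    have h6 : ∑ i, (ν i x * pd c i x - ν i y * pd c i y) ^ 2 ≤
        2 * δ ^ 2 + 2 * ρ x ^ 2 * (W * δ / ρ x) ^ 2 := by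
      calc ∑ i, (ν i x * pd c i x - ν i y * pd c i y) ^ 2 ≤
          ∑ i, (2 * δ ^ 2 * ν i x ^ 2 + 2 * ρ x ^ 2 * (ν i x - ν i y) ^ 2) :=
            Finset.sum_le_sum fun i _ => h5' i
        _ = 2 * δ ^ 2 + 2 * ρ x ^ 2 * ∑ i, (ν i x - ν i y) ^ 2 := by
            rw [Finset.sum_add_distrib, ← Finset.mul_sum, ← Finset.mul_sum, hsx, mul_one]
        _ ≤ _ := add_le_add le_rfl (mul_le_mul_of_nonneg_left hdν (by positivity))
    have e2 : ρ x ^ 2 * (W * δ / ρ x) ^ 2 = W ^ 2 * δ ^ 2 := by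
      field_simp
    refine le_trans ?_ hscale
    have h7 : 0 ≤ δ ^ 2 * L ^ 2 := by positivity
    have h8 : 0 ≤ δ ^ 2 * W ^ 2 := by positivity
    have h9 : 4 * ρ x ^ 2 * (W * δ / ρ x) ^ 2 = 4 * (W ^ 2 * δ ^ 2) := by rw [← e2]; ring
    have h10 : 2 * ρ x ^ 2 * (W * δ / ρ x) ^ 2 = 2 * (W ^ 2 * δ ^ 2) := by rw [← e2]; ring
    rw [h9] at h4
    rw [h10] at h6
    nlinarith

end Pool.Agent.W493.UK
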